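import Pool.Agent.Lib.MP_c05f82_nt.Omega

set_option autoImplicit false

open ArithmeticFunction.sigma

namespace Pool.Agent.Results.MP_c05f82_nt.BoundedExponents

open Pool.Agent.Lib.MP_c05f82_nt

/-- In every club, only finitely many members have all prime exponents at most `K` and, outside a
set of at most `W` primes, even exponents `e, e'` always with `gcd (e + 1, e' + 1) > 1`. -/
theorem result (n K W : ℕ) (hn : 0 < n) :
    {m : ℕ | 0 < m ∧ σ 1 m * n = σ 1 n * m ∧ (∀ p, m.factorization p ≤ K) ∧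
      ∃ X : Finset ℕ, X.card ≤ W ∧ ∀ p ∈ m.primeFactors \ X, ∀ q ∈ m.primeFactors \ X,
        Even (m.factorization p) → Even (m.factorization q) →
          ¬ Nat.Coprime (m.factorization p + 1) (m.factorization q + 1)}.Finite := by
  refine (fin_omega K (ob (σ 1 n) K W) ((σ 1 n : ℚ) / n)).subset ?_
  rintro m ⟨h1, h2, h3, X, h4, h5⟩
  refine ⟨h1, omega_le (ArithmeticFunction.sigma_pos 1 n hn.ne') h1 h2 h3 X h4 h5, h3, ?_⟩
  have h6 : (0 : ℚ) < n := by exact_mod_cast hn
  rw [div_mul_eq_mul_div, eq_div_iff h6.ne']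
  exact_mod_cast h2

end Pool.Agent.Results.MP_c05f82_nt.BoundedExponents
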