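import Pool.Agent.Lib.MP_c05f82_nt.FlatMain

set_option autoImplicit false

open ArithmeticFunction.sigma

namespace Pool.Agent.Results.MP_c05f82_nt.FlatMultiperfect

open Pool.Agent.Lib.MP_c05f82_nt.Flat

/-- A number with squarefree odd part has an integer abundancy index if and only if it is perfect
or one of nine listed numbers. -/
theorem result (n a s : ℕ) (hn : n = 2 ^ a * s) (hodd : Odd s) (hs : Squarefree s) :
    n ∣ σ 1 n ↔ Nat.Perfect n ∨ n ∈ ({1, 120, 672, 523776, 459818240, 1476304896, 51001180160,
      1379454720, 153003540480} : Finset ℕ) := by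
  have hpos : 0 < n := by rw [hn]; exact Nat.mul_pos (by positivity) hodd.pos
  have hsol : n ∈ ({1, 120, 672, 523776, 459818240, 1476304896, 51001180160,
      1379454720, 153003540480} : Finset ℕ) ↔ n ∈ sols := by simp [sols]
  rw [hsol, Nat.perfect_iff_sum_divisors_eq_two_mul hpos, ← ArithmeticFunction.sigma_one_apply]
  constructor
  · rintro ⟨k, hk⟩
    have hU : ∀ p ∈ s.primeFactors, p.Prime ∧ p ≠ 2 := by
      intro p hp
      refine ⟨Nat.prime_of_mem_primeFactors hp, ?_⟩
      rintro rfl
      exact hodd.not_two_dvd_nat (Nat.dvd_of_mem_primeFactors hp)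
    have h := forward a k s.primeFactors hU
    rw [Nat.prod_primeFactors_of_squarefree hs, ← hn] at h
    rcases h hk with rfl | h
    · left; rw [hk, mul_comm]
    · exact Or.inr h
  · rintro (h | h)
    · rw [h]; exact Dvd.intro_left 2 rfl
    · exact backward n h

end Pool.Agent.Results.MP_c05f82_nt.FlatMultiperfect
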