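import Pool.Agent.Lib.MP_c05f82_nt.LG.Main

/-!
Infinitely many Leinster groups: infinitely many finite groups `G` for which the sum of the
orders of the normal subgroups equals `2 |G|`.
-/

namespace Pool.Agent.Results.MP_c05f82_nt.LeinsterGroups

open Pool.Agent.Lib.MP_c05f82_nt.LG

theorem result (n : ℕ) : ∃ (G : Type) (_ : Group G) (_ : Finite G), n < Nat.card G ∧
    ∑ᶠ (N : Subgroup G) (_ : N.Normal), Nat.card N = 2 * Nat.card G := by
  obtain ⟨G, _, _, h, e⟩ := exists_group (n + 1) n.succ_pos
  refine ⟨G, inferInstance, inferInstance, lt_of_lt_of_le ?_ h, e⟩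
  exact lt_of_le_of_lt (by omega) (Nat.lt_pow_self (by norm_num))

end Pool.Agent.Results.MP_c05f82_nt.LeinsterGroups
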