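import Pool.Agent.Lib.MP_c05f82_nt.PSCount

set_option autoImplicit false

open ArithmeticFunction.sigma

namespace Pool.Agent.Results.MP_c05f82_nt.PrimitiveSets

open Pool.Agent.Lib.MP_c05f82_nt.PS

/-- The number of `k`-element subsets of `[1, x]` whose members are pairwise friendly and have no
common unitary divisor `d > 1` is `O(x ^ (k / (k + 5) + ε))`. -/
theorem result (k : ℕ) (hk : 2 ≤ k) (ε : ℝ) (hε : 0 < ε) : ∃ C : ℝ, ∀ x : ℕ, 1 ≤ x →
    (Set.ncard {S : Finset ℕ | S ⊆ Finset.Icc 1 x ∧ S.card = k ∧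
      (∀ m ∈ S, ∀ n ∈ S, σ 1 m * n = σ 1 n * m) ∧
      ¬ ∃ d, 1 < d ∧ ∀ m ∈ S, d ∣ m ∧ Nat.Coprime d (m / d)} : ℝ) ≤
      C * (x : ℝ) ^ ((k : ℝ) / (k + 5) + ε) := by
  classical
  obtain ⟨C, hC⟩ := tuples hk ε hε
  refine ⟨C, fun x hx => ?_⟩
  set F := (Fintype.piFinset (fun _ : Fin k => Finset.Icc 1 x)).filter PF with hF
  refine le_trans ?_ (hC x hx F (fun n hn => ⟨(Finset.mem_filter.1 hn).2, fun i =>
    (Finset.mem_Icc.1 (Fintype.mem_piFinset.1 (Finset.mem_filter.1 hn).1 i)).2⟩))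
  rw [Nat.cast_le, ← Set.ncard_coe_finset]
  refine le_trans (Set.ncard_le_ncard ?_ ((Finset.finite_toSet F).image _))
    (Set.ncard_image_le (f := fun n : Fin k → ℕ => Finset.univ.image n) (Finset.finite_toSet F))
  rintro S ⟨h1, h2, h3, h4⟩
  set n : Fin k → ℕ := fun i => S.orderEmbOfFin h2 i with hn
  have hm : ∀ i, n i ∈ S := fun i => S.orderEmbOfFin_mem h2 i
  have hsurj : ∀ m ∈ S, ∃ i, n i = m := by
    intro m hmS
    have : m ∈ Set.range (S.orderEmbOfFin h2) := by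
      rw [Finset.range_orderEmbOfFin]; exact hmS
    exact this
  have hne : ∀ i, n i ≠ 0 := fun i => by have := (Finset.mem_Icc.1 (h1 (hm i))).1; omega
  refine ⟨n, Finset.mem_coe.2 (Finset.mem_filter.2 ⟨Fintype.mem_piFinset.2 (fun i => h1 (hm i)),
    hne, fun i j => h3 _ (hm i) _ (hm j), ?_⟩), ?_⟩
  · intro p hp i hd
    by_contra hc
    push Not at hc
    refine h4 ⟨p ^ (n i).factorization p, Nat.one_lt_pow
      (hp.factorization_pos_of_dvd (hne i) hd).ne' hp.one_lt, fun m hmS => ?_⟩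
    obtain ⟨j, rfl⟩ := hsurj m hmS
    rw [hc j]
    exact ⟨Nat.ordProj_dvd _ _, Nat.Coprime.pow_left _ (Nat.coprime_ordCompl hp (hne j))⟩
  · ext m
    simp only [Finset.mem_image, Finset.mem_univ, true_and]
    exact ⟨fun ⟨i, hi⟩ => hi ▸ hm i, hsurj m⟩

end Pool.Agent.Results.MP_c05f82_nt.PrimitiveSets
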